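import Mathlib

set_option autoImplicit false

open Finset
open scoped ENNReal

namespace Pool.Agent.Results.MP_cbd396_lc.Gap

section defs
variable {V E I : Type} (tail head : E → V) (src snk : I → V)

/-- removing `M` leaves no directed path from any source to its sink -/
def Multicut (M : Finset E) : Prop :=
  ∀ i, ¬ Relation.ReflTransGen (fun x y => ∃ e ∉ M, tail e = x ∧ head e = y) (src i) (snk i)

/-- minimum size of a multicut -/
noncomputable def MC : ℝ≥0∞ := ⨅ (M : Finset E) (_ : Multicut tail head src snk M), (M.card : ℝ≥0∞)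

/-- there is a solution over an alphabet of size `q` with block length `b` and message lengths
`a i`; `val x e` is the word carried by the edge `e` when the messages are `x` -/
def Sol (q b : ℕ) (a : I → ℕ) : Prop :=
  ∃ val : (∀ i, Fin (a i) → Fin q) → E → Fin b → Fin q,
    (∀ e x y, (∀ f, head f = tail e → val x f = val y f) → (∀ i, src i = tail e → x i = y i) →
      val x e = val y e) ∧
    ∀ i x y, (∀ f, head f = snk i → val x f = val y f) → x i = y i

/-- the network coding rate -/
noncomputable def Rate [Fintype I] : ℝ≥0∞ :=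
  ⨆ (q : ℕ) (b : ℕ) (a : I → ℕ) (_ : 2 ≤ q ∧ 1 ≤ b ∧ Sol tail head src snk q b a),
    ((∑ i, a i : ℕ) : ℝ≥0∞) / b

end defs

section tree
variable (n : ℕ)

def B : ℕ → Type
  | 0 => Unit
  | d + 1 => Option ((Bool × Fin n) × B d)

instance fin : ∀ d, Fintype (B n d)
  | 0 => inferInstanceAs (Fintype Unit)
  | d + 1 => letI := fin d; inferInstanceAs (Fintype (Option ((Bool × Fin n) × B n d)))

def len : ℕ → ℕ
  | 0 => 1
  | d + 1 => 2 * (n * len d) + 1

def base (d : ℕ) (s : Bool) : ℕ := bif s then n * len n d + 1 else 0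

variable {n}

def off (d : ℕ) (i : Bool × Fin n) : ℕ := base n d i.1 + i.2 * len n d

def st : ∀ d, B n d → ℕ
  | 0, _ => 0
  | _ + 1, none => 0
  | d + 1, some (i, w) => off d i + st d w

def md : ∀ d, B n d → ℕ
  | 0, _ => 0
  | d + 1, none => n * len n d
  | d + 1, some (i, w) => off d i + md d w

def en : ∀ d, B n d → ℕ
  | 0, _ => 1
  | d + 1, none => len n (d + 1)
  | d + 1, some (i, w) => off d i + en d w

def cap : ∀ d, B n d → ℕ
  | 0, _ => 0
  | d + 1, none => (2 * n) ^ d
  | d + 1, some (_, w) => cap d w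

theorem off_le (d : ℕ) (i : Bool × Fin n) : base n d i.1 ≤ off d i ∧
    off d i + len n d ≤ base n d i.1 + n * len n d := by
  have := Nat.mul_le_mul_right (len n d) (show i.2 + 1 ≤ n from i.2.2)
  unfold off
  constructor <;> nlinarith

theorem ord : ∀ d (w : B n d), st d w ≤ md d w ∧ md d w < en d w ∧ en d w ≤ len n d
  | 0, _ => by simp [st, md, en, len]
  | d + 1, none => by simp [st, md, en, len]; omega
  | d + 1, some (i, w) => by
    have := ord d w
    have := off_le d i
    have : base n d i.1 ≤ n * len n d + 1 := by cases i.1 <;> simp [base]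
    simp only [st, md, en, len]; omega

theorem off_sep (d : ℕ) {i j : Bool × Fin n} (h : i ≠ j) :
    off d i + len n d ≤ off d j ∨ off d j + len n d ≤ off d i := by
  obtain ⟨s, i⟩ := i
  obtain ⟨t, j⟩ := j
  have a := off_le d (s, i)
  have b := off_le d (t, j)
  have k : ∀ x y : Fin n, x < y → x * len n d + len n d ≤ y * len n d := fun x y c => by
    have := Nat.mul_le_mul_right (len n d) (show x.1 + 1 ≤ y from c); nlinarith
  by_cases e : s = t
  · subst e
    rcases lt_or_gt_of_ne (show i ≠ j by simpa using h) with c | c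
    · have := k _ _ c; simp only [off]; omega
    · have := k _ _ c; simp only [off]; omega
  · cases s <;> cases t <;> simp [base] at a b e ⊢ <;> omega

theorem off_mid (d : ℕ) (i : Bool × Fin n) :
    off d i + len n d ≤ n * len n d ∨ n * len n d + 1 ≤ off d i := by
  have a := off_le d i
  cases e : i.1 <;> simp [e, base] at a <;> omega

theorem lam : ∀ d (w v : B n d), (st d v ≤ md d w → md d w < en d v →
    st d v ≤ st d w ∧ en d w ≤ en d v) ∧ (md d v = md d w → v = w)
  | 0, _, _ => ⟨fun _ _ => ⟨le_rfl, le_rfl⟩, fun _ => rfl⟩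
  | d + 1, none, none => ⟨fun _ _ => ⟨le_rfl, le_rfl⟩, fun _ => rfl⟩
  | d + 1, none, some (j, v) => by
    have := ord d v
    have := off_mid d j
    simp only [st, md, en]; constructor <;> intros <;> omega
  | d + 1, some (i, w), none => by
    have := ord d w
    have := off_mid d i
    exact ⟨fun _ _ => ⟨Nat.zero_le _, (ord (d + 1) _).2.2⟩, by simp only [md]; omega⟩
  | d + 1, some (i, w), some (j, v) => by
    have := ord d w
    have := ord d v
    simp only [st, md, en]
    by_cases e : i = j
    · subst e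
      have := lam d w v
      exact ⟨by omega, fun h => by rw [this.2 (by omega)]⟩
    · have := off_sep d e
      constructor <;> intros <;> omega

theorem root : ∀ d, ∃ w : B n d, st d w = 0 ∧ en d w = len n d
  | 0 => ⟨(), rfl, rfl⟩
  | _ + 1 => ⟨none, rfl, rfl⟩

theorem sum_B {M : Type} [AddCommMonoid M] (d : ℕ) (f : B n (d + 1) → M) :
    ∑ w, f w = f none + ∑ i : Bool × Fin n, ∑ w, f (some (i, w)) := by
  rw [← Fintype.sum_prod_type']
  exact Fintype.sum_option (α := (Bool × Fin n) × B n d) f

theorem sum_cap (d : ℕ) : 2 * n * ∑ w : B n d, cap d w = d * (2 * n) ^ d := by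
  induction d with
  | zero => simp [cap]
  | succ d ih =>
    rw [sum_B]
    simp only [cap, sum_const, card_univ, Fintype.card_prod, Fintype.card_bool, Fintype.card_fin,
      smul_eq_mul, ih]
    ring

def phi (a b : ℕ) : ℝ :=
  if a = 0 ∧ b = 0 then 9 else if a = 0 ∨ b = 0 then 6 else if a + b = 2 then 2
  else if a + b = 3 then 0 else -4

theorem phi_ge (a b : ℕ) : -4 ≤ phi a b := by unfold phi; split_ifs <;> norm_num

theorem side {a b : Fin n → ℕ} (h3 : ∀ i, a i ≤ 3 ∧ b i ≤ 3) (h : ∀ i j, i < j → a i + b j ≤ 3)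
    {β : ℝ} (h0 : 0 ≤ β) (h6 : β ≤ 6) (hb : ∀ i, a i + b i ≤ 3 → β ≤ phi (a i) (b i)) :
    n * β - 30 ≤ ∑ i, phi (a i) (b i) := by
  have c : (univ.filter fun i => 3 < a i + b i).card ≤ (Icc 1 3).card := by
    refine card_le_card_of_injOn a (fun i hi => ?_) fun i hi j hj e => ?_
    · have := h3 i
      simp at hi ⊢; omega
    · simp only [coe_filter, mem_univ, true_and, Set.mem_ofPred_eq] at hi hj
      rcases lt_trichotomy i j with c | c | c
      · have := h i j c; omega
      · exact c
      · have := h j i c; omega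
  have : ∑ i : Fin n, (β - if 3 < a i + b i then 10 else 0) ≤ ∑ i, phi (a i) (b i) :=
    sum_le_sum fun i _ => by
      split_ifs with e
      · linarith [phi_ge (a i) (b i)]
      · linarith [hb i (by omega)]
  rw [sum_sub_distrib, ← sum_filter] at this
  simp only [sum_const, card_univ, Fintype.card_fin, nsmul_eq_mul] at this
  have : ((univ.filter fun i => 3 < a i + b i).card : ℝ) ≤ 3 := by exact_mod_cast c
  linarith

variable (Rch : ℕ → ℕ → Prop) (lo hi : ℕ → ℕ)

def Up (x y k : ℕ) : Prop := ∃ u, ∃ W : Finset ℕ, x < u ∧ u ≤ y ∧ Rch u y ∧ W.card = k ∧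
  ∀ p ∈ W, u ≤ p ∧ p < y ∧ lo p < u

def Dn (x y k : ℕ) : Prop := ∃ v, ∃ W : Finset ℕ, x ≤ v ∧ v < y ∧ Rch x v ∧ W.card = k ∧
  ∀ p ∈ W, x ≤ p ∧ p < v ∧ v < hi p

open Classical in
theorem lower (hn : 300 ≤ n) (rf : ∀ x, Rch x x) (tr : ∀ x y z, Rch x y → Rch y z → Rch x z)
    (ok : ∀ u v (W : Finset ℕ), Rch u v →
      (∀ p ∈ W, u ≤ p ∧ p < v ∧ (lo p < u ∨ v < hi p)) → W.card ≤ 3) (d o : ℕ)
    (cut : B n d → Prop) (h1 : ∀ w : B n d, Rch (o + st d w) (o + en d w))
    (h2 : ∀ w, ¬ cut w → Rch (o + md d w) (o + md d w + 1))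
    (h3 : ∀ w : B n d, lo (o + md d w) = o + st d w ∧ hi (o + md d w) = o + en d w) :
    ∃ a b, Up Rch lo o (o + len n d) a ∧ Dn Rch hi o (o + len n d) b ∧
      (2 * n : ℝ) ^ d * (39 / 10 * d - 9 + phi a b) ≤
        14 * n * ∑ w, if cut w then (cap d w : ℝ) else 0 := by
  induction d generalizing o with
  | zero =>
    exact ⟨0, 0, ⟨o + 1, ∅, by simp, le_rfl, rf _, rfl, by simp⟩,
      ⟨o, ∅, le_rfl, by simp [len], rf _, rfl, by simp⟩, by simp [phi, cap]⟩
  | succ d ih =>
    choose a b ha hb hc using fun i : Bool × Fin n => ih (o + off d i) (fun w => cut (some (i, w)))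
      (fun w => by simpa only [st, en, add_assoc] using h1 (some (i, w)))
      (fun w h => by simpa only [md, add_assoc] using h2 (some (i, w)) h)
      fun w => by simpa only [st, md, en, add_assoc] using h3 (some (i, w))
    have ch : ∀ s j k, j ≤ k → k ≤ n →
        Rch (o + (base n d s + j * len n d)) (o + (base n d s + k * len n d)) := by
      intro s j k h hk
      induction h with
      | refl => exact rf _
      | @step k h ih =>
        obtain ⟨w, w1, w2⟩ := root (n := n) d
        have := h1 (some ((s, ⟨k, hk⟩), w))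
        simp only [st, en, w1, w2, off, add_zero] at this
        exact tr _ _ _ (ih (by omega)) (by rwa [Nat.succ_mul, ← add_assoc (base n d s)])
    have c1 : ∀ i : Bool × Fin n, Rch (o + off d i + len n d) (o + (base n d i.1 + n * len n d)) :=
      fun i => by
        have := ch i.1 (i.2 + 1) n i.2.2 le_rfl
        rwa [Nat.succ_mul, ← add_assoc (base n d _), ← add_assoc o] at this
    have c2 : ∀ i : Bool × Fin n, Rch (o + base n d i.1) (o + off d i) := fun i => by
      simpa [off] using ch i.1 0 i.2 (by omega) i.2.2.le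
    have le3 : ∀ i, a i ≤ 3 ∧ b i ≤ 3 := fun i => by
      obtain ⟨u, W, -, -, u3, u4, u5⟩ := ha i
      obtain ⟨v, X, -, -, v3, v4, v5⟩ := hb i
      exact ⟨u4 ▸ ok _ _ W u3 fun p hp => by have := u5 p hp; omega,
        v4 ▸ ok _ _ X v3 fun p hp => by have := v5 p hp; omega⟩
    have sum3 : ∀ s (i j : Fin n), i < j → a (s, i) + b (s, j) ≤ 3 := fun s i j h => by
      obtain ⟨u, W, u1, u2, u3, u4, u5⟩ := ha (s, i)
      obtain ⟨v, X, v1, v2, v3, v4, v5⟩ := hb (s, j)
      have e := ch s (i + 1) j h j.2.le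
      rw [Nat.succ_mul, ← add_assoc (base n d _), ← add_assoc o] at e
      have l : off d (s, i) + len n d ≤ off d (s, j) := by
        have := Nat.mul_le_mul_right (len n d) (show i.1 + 1 ≤ j from h)
        simp only [off]; nlinarith
      rw [← u4, ← v4, ← card_union_of_disjoint (disjoint_left.2 fun p h1 h2 => by
        have := u5 p h1; have := v5 p h2; omega)]
      refine ok u v _ (tr _ _ _ u3 (tr _ _ _ e v3)) fun p hp => ?_
      rcases mem_union.1 hp with h | h
      · have := u5 p h; omega
      · have := v5 p h; omega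
    have ne : (univ : Finset (Fin n)).Nonempty := ⟨⟨0, by omega⟩, mem_univ _⟩
    obtain ⟨i1, -, m1⟩ := exists_max_image univ (fun i => a (true, i)) ne
    obtain ⟨i2, -, m2⟩ := exists_max_image univ (fun i => a (false, i)) ne
    obtain ⟨i3, -, m3⟩ := exists_max_image univ (fun i => b (true, i)) ne
    obtain ⟨i4, -, m4⟩ := exists_max_image univ (fun i => b (false, i)) ne
    have el : o + (base n d true + n * len n d) = o + len n (d + 1) := by
      simp only [base, len, cond_true]; ring
    have U1 : Up Rch lo o (o + len n (d + 1)) (a (true, i1)) := by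
      obtain ⟨u, W, u1, u2, u3, u4, u5⟩ := ha (true, i1)
      have := off_le d (true, i1)
      dsimp only at this
      exact ⟨u, W, by omega, by omega, tr _ _ _ u3 (el ▸ c1 _), u4,
        fun p hp => by have := u5 p hp; omega⟩
    have D1 : Dn Rch hi o (o + len n (d + 1)) (b (false, i4)) := by
      obtain ⟨u, W, u1, u2, u3, u4, u5⟩ := hb (false, i4)
      have := off_le d (false, i4)
      simp only [base, cond_false] at this
      exact ⟨u, W, by omega, by simp only [len]; omega, tr _ _ _ (c2 (false, i4)) u3, u4,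
        fun p hp => by have := u5 p hp; omega⟩
    have fin : ∀ (A C : ℕ) (β γ : ℝ), 0 ≤ β → β ≤ 6 → 0 ≤ γ → γ ≤ 6 →
        (∀ i, a (false, i) + b (false, i) ≤ 3 → β ≤ phi (a (false, i)) (b (false, i))) →
        (∀ i, a (true, i) + b (true, i) ≤ 3 → γ ≤ phi (a (true, i)) (b (true, i))) →
        phi A C + 4 ≤ (if cut none then 7 else 0) + (β + γ) / 2 →
        (2 * n : ℝ) ^ (d + 1) * (39 / 10 * (d + 1 : ℕ) - 9 + phi A C) ≤
        14 * n * ∑ w, if cut w then (cap (d + 1) w : ℝ) else 0 := by
      intro A C β γ b0 b6 g0 g6 hβ hγ bell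
      have s1 := side (fun i => le3 (false, i)) (sum3 false) b0 b6 hβ
      have s2 := side (fun i => le3 (true, i)) (sum3 true) g0 g6 hγ
      have s3 := sum_le_sum fun i (_ : i ∈ univ) => hc i
      rw [← mul_sum, ← mul_sum, sum_add_distrib, Fintype.sum_prod_type (f := fun i =>
        phi (a i) (b i)), Fintype.sum_bool] at s3
      simp only [sum_const, card_univ, Fintype.card_prod, Fintype.card_bool, Fintype.card_fin,
        nsmul_eq_mul] at s3
      rw [sum_B, mul_add (14 * n : ℝ)]
      refine le_trans ?_ (add_le_add_right s3 _)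
      have n3 : (300 : ℝ) ≤ n := by exact_mod_cast hn
      have : (14 * n * if cut none then (cap (d + 1) (none : B n (d + 1)) : ℝ) else 0) =
          (2 * n : ℝ) ^ d * (2 * n * if cut none then 7 else 0) := by
        split_ifs <;> simp [cap]; ring
      rw [this, ← mul_add, pow_succ, mul_assoc]
      refine mul_le_mul_of_nonneg_left ?_ (by positivity)
      push_cast
      nlinarith [mul_le_mul_of_nonneg_left bell (show (0 : ℝ) ≤ 2 * n by positivity)]
    by_cases hcut : cut none
    · refine ⟨_, _, U1, D1, fin _ _ (if b (false, i4) = 0 then 6 else 0)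
        (if a (true, i1) = 0 then 6 else 0) (by positivity) (by split_ifs <;> norm_num)
        (by positivity) (by split_ifs <;> norm_num) (fun i h => ?_) (fun i h => ?_) ?_⟩
      · have := m4 i (mem_univ _)
        unfold phi; split_ifs <;> first | omega | norm_num
      · have := m1 i (mem_univ _)
        unfold phi; split_ifs <;> first | omega | norm_num
      · rw [if_pos hcut]
        unfold phi; split_ifs <;> first | omega | norm_num
    · have e := h2 none hcut
      obtain ⟨l1, l2⟩ := h3 none
      simp only [md, st, en] at e l1 l2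
      have U2 : Up Rch lo o (o + len n (d + 1)) (a (false, i2) + 1) := by
        obtain ⟨u, W, u1, u2, u3, u4, u5⟩ := ha (false, i2)
        have := off_le d (false, i2)
        have k1 := c1 (false, i2)
        have k2 := ch true 0 n (by omega) le_rfl
        rw [el] at k2
        simp only [base, cond_false, cond_true, zero_add, zero_mul, add_zero] at this k1 k2
        refine ⟨u, insert (o + n * len n d) W, by omega, by simp only [len]; omega,
          tr _ _ _ u3 (tr _ _ _ k1 (tr _ _ _ e k2)), by
            rw [card_insert_of_notMem fun h => by have := u5 _ h; omega, u4], fun p hp => ?_⟩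
        simp only [len]
        rcases mem_insert.1 hp with rfl | h
        · omega
        · have := u5 p h; omega
      have D2 : Dn Rch hi o (o + len n (d + 1)) (b (true, i3) + 1) := by
        obtain ⟨u, W, u1, u2, u3, u4, u5⟩ := hb (true, i3)
        have := off_le d (true, i3)
        have k1 := c2 (true, i3)
        have k2 := ch false 0 n (by omega) le_rfl
        simp only [base, cond_false, cond_true, zero_add, zero_mul, add_zero] at this k1 k2
        refine ⟨u, insert (o + n * len n d) W, by omega, by simp only [len]; omega,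
          tr _ _ _ k2 (tr _ _ _ e (tr _ _ _ k1 u3)), by
            rw [card_insert_of_notMem fun h => by have := u5 _ h; omega, u4], fun p hp => ?_⟩
        rcases mem_insert.1 hp with rfl | h
        · simp only [len] at l2; omega
        · have := u5 p h; omega
      obtain ⟨A, A1, A2, A3⟩ : ∃ A, Up Rch lo o (o + len n (d + 1)) A ∧ a (true, i1) ≤ A ∧
          a (false, i2) + 1 ≤ A := by
        rcases le_total (a (true, i1)) (a (false, i2) + 1) with c | c
        exacts [⟨_, U2, c, le_rfl⟩, ⟨_, U1, le_rfl, c⟩]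
      obtain ⟨C, C1, C2, C3⟩ : ∃ C, Dn Rch hi o (o + len n (d + 1)) C ∧ b (false, i4) ≤ C ∧
          b (true, i3) + 1 ≤ C := by
        rcases le_total (b (false, i4)) (b (true, i3) + 1) with c | c
        exacts [⟨_, D2, c, le_rfl⟩, ⟨_, D1, le_rfl, c⟩]
      refine ⟨A, C, A1, C1, fin _ _ (if A = 1 then 6 else if A = 2 ∧ C = 1 then 2 else 0)
        (if C = 1 then 6 else if A = 1 ∧ C = 2 then 2 else 0) (by positivity)
        (by split_ifs <;> norm_num) (by positivity) (by split_ifs <;> norm_num)
        (fun i h => ?_) (fun i h => ?_) ?_⟩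
      · have := m2 i (mem_univ _)
        have := m4 i (mem_univ _)
        unfold phi; split_ifs <;> first | omega | norm_num
      · have := m1 i (mem_univ _)
        have := m3 i (mem_univ _)
        unfold phi; split_ifs <;> first | omega | norm_num
      · rw [if_neg hcut]
        unfold phi; split_ifs <;> first | omega | norm_num

end tree

section net
variable {V E I : Type} {tail head : E → V} {src snk : I → V}

theorem agree {α : Type} (rk : V → ℕ) (hr : ∀ e, rk (tail e) < rk (head e)) (u v : E → α)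
    (P : V → Prop) (loc : ∀ e, (∀ f, head f = tail e → u f = v f) → P (tail e) → u e = v e)
    (Z : V → Prop) (hP : ∀ y, Z y → P y) (hZ : ∀ e, Z (head e) → Z (tail e) ∨ u e = v e) (e : E)
    (h : Z (head e)) : u e = v e := by
  induction hk : rk (head e) using Nat.strong_induction_on generalizing e with
  | _ k ih =>
    rcases hZ e h with z | z
    · exact loc e (fun f hf => ih _ (by rw [← hk, hf]; exact hr e) f (hf ▸ z) rfl) (hP _ z)
    · exact z

open Classical in
theorem count [Fintype I] {q b : ℕ} {a : I → ℕ} (hq : 2 ≤ q) (J : I → Prop) {C : Type} [Fintype C]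
    (F : (∀ i, Fin (a i) → Fin q) → C → Fin b → Fin q)
    (h : ∀ x y, (∀ i, ¬ J i → x i = y i) → F x = F y → x = y) :
    ∑ i, (if J i then a i else 0) ≤ Fintype.card C * b := by
  let ext : (∀ i : {i // J i}, Fin (a i) → Fin q) → ∀ i, Fin (a i) → Fin q :=
    fun y i => if h : J i then y ⟨i, h⟩ else fun _ => ⟨0, by omega⟩
  have inj : Function.Injective fun y => F (ext y) := fun y z e => by
    have := h _ _ (fun i hi => by simp [ext, hi]) e
    funext ⟨i, hi⟩
    simpa [ext, hi] using congrFun this i
  have := Fintype.card_le_of_injective _ inj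
  simp only [Fintype.card_pi, prod_const, card_univ, Fintype.card_fin, prod_pow_eq_pow_sum,
    ← pow_mul] at this
  rw [← sum_filter, sum_subtype (p := J) _ (by simp), mul_comm]
  exact (Nat.pow_le_pow_iff_right hq).1 this

def tl (tail : E → V) : E × Bool → V ⊕ E
  | (e, false) => .inl (tail e)
  | (e, true) => .inr e

def hd (head : E → V) : E × Bool → V ⊕ E
  | (e, false) => .inr e
  | (e, true) => .inl (head e)

theorem sub_rate [Fintype I] : Rate (tl tail) (hd head) (fun i => .inl (src i))
    (fun i => .inl (snk i)) ≤ Rate tail head src snk := by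
  refine iSup_mono fun q => iSup_mono fun b => iSup_mono fun a => iSup_mono' ?_
  rintro ⟨h1, h2, val, l, dec⟩
  refine ⟨⟨h1, h2, fun x e => val x (e, true), fun e x y a1 a2 => l _ x y ?_ (by simp [tl]),
    fun i x y a1 => dec i x y ?_⟩, le_rfl⟩
  · rintro ⟨f, _ | _⟩ hf
    · obtain rfl : f = e := by simpa [hd, tl] using hf
      refine l _ x y ?_ (by simpa [tl] using a2)
      rintro ⟨g, _ | _⟩ hg
      · simp [hd, tl] at hg
      · exact a1 g (by simpa [hd, tl] using hg)
    · simp [hd, tl] at hf
  · rintro ⟨g, _ | _⟩ hg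
    · simp [hd] at hg
    · exact a1 g (by simpa [hd] using hg)

theorem sub_mc : MC tail head src snk ≤
    MC (tl tail) (hd head) (fun i => .inl (src i)) (fun i => .inl (snk i)) := by
  classical
  refine le_iInf₂ fun M hM => iInf₂_le_of_le (M.image Prod.fst) (fun i h => hM i ?_)
    (by exact_mod_cast card_image_le)
  beta_reduce
  generalize snk i = t at h
  induction h with
  | refl => exact .refl
  | tail _ h ih =>
    obtain ⟨e, e1, rfl, rfl⟩ := h
    exact (ih.tail ⟨(e, false), fun c => e1 (mem_image_of_mem _ c), rfl, rfl⟩).tail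
      ⟨(e, true), fun c => e1 (mem_image_of_mem _ c), rfl, rfl⟩

end net

section main
variable (n D K : ℕ)

abbrev Vt := Fin (len n D + 1)
abbrev Ed := (B n D × Fin K) ⊕ Σ w : B n D, Fin (cap D w)

def tl0 : Ed n D K → Vt n D
  | .inl (w, _) => ⟨st D w, by have := ord D w; omega⟩
  | .inr ⟨w, _⟩ => ⟨md D w, by have := ord D w; omega⟩

def hd0 : Ed n D K → Vt n D
  | .inl (w, _) => ⟨en D w, by have := ord D w; omega⟩
  | .inr ⟨w, _⟩ => ⟨md D w + 1, by have := ord D w; omega⟩

def hit (w : B n D) (u v : ℕ) : Prop := u ≤ md D w ∧ md D w < v ∧ (st D w < u ∨ v < en D w)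

open Classical in
def Ix := {p : Vt n D × Vt n D // 4 ≤ (univ.filter fun w : B n D => hit n D w p.1 p.2).card}

noncomputable instance : Fintype (Ix n D) := by unfold Ix; infer_instance

theorem rk0 (e : Ed n D K) : (tl0 n D K e).1 < (hd0 n D K e).1 := by
  rcases e with ⟨w, _⟩ | ⟨w, _⟩
  · have := ord D w; simp only [tl0, hd0]; omega
  · simp [tl0, hd0]

theorem rate_le : Rate (tl0 n D K) (hd0 n D K) (fun i : Ix n D => i.1.1) (fun i => i.1.2) ≤
    ((∑ w : B n D, cap D w : ℕ) : ℝ≥0∞) / 4 := by
  classical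
  refine iSup_le fun q => iSup_le fun b => iSup_le fun a => iSup_le ?_
  rintro ⟨hq, hb, val, l, dec⟩
  have key : ∀ w : B n D, ∑ i : Ix n D, (if hit n D w i.1.1 i.1.2 then a i else 0) ≤
      cap D w * b := by
    intro w
    have := count hq (fun i : Ix n D => hit n D w i.1.1 i.1.2)
      (fun x (j : Fin (cap D w)) => val x (.inr ⟨w, j⟩)) fun x y h1 h2 => ?_
    · simpa using this
    have jump : ∀ e, (tl0 n D K e).1 ≤ md D w → md D w < (hd0 n D K e).1 →
        ((tl0 n D K e).1 ≤ st D w ∧ en D w ≤ (hd0 n D K e).1) ∨ val x e = val y e := by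
      rintro (⟨v, _⟩ | ⟨v, j⟩) a1 a2
      · exact Or.inl ((lam D w v).1 a1 a2)
      · obtain rfl : v = w := (lam D w v).2 (by simp only [tl0, hd0] at a1 a2; omega)
        exact Or.inr (congrFun h2 j)
    have A := agree (fun v : Vt n D => v.1) (rk0 n D K) (val x) (val y)
      (fun z => ∀ i : Ix n D, i.1.1 = z → x i = y i) fun e => l e x y
    have s1 : ∀ i : Ix n D, md D w < i.1.2 → i.1.2 < en D w → x i = y i := fun i a1 a2 =>
      dec i x y fun f hf => A (fun z => md D w < z ∧ z < en D w)
        (fun z hz j hj => h1 j fun c => by have := c.1; rw [hj] at this; omega)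
        (fun e he => by
          have := rk0 n D K e
          by_cases c : md D w < (tl0 n D K e).1
          · exact Or.inl ⟨c, by omega⟩
          · exact Or.inr ((jump e (by omega) he.1).resolve_left (by omega))) f (hf ▸ ⟨a1, a2⟩)
    funext i
    by_cases c : hit n D w i.1.1 i.1.2
    · refine dec i x y fun f hf => A (fun z => z ≤ st D w ∨ md D w < z) (fun z hz j hj => ?_)
        (fun e he => ?_) f (hf ▸ Or.inr c.2.1)
      · by_cases c : hit n D w j.1.1 j.1.2
        · obtain ⟨c1, c2, c3⟩ := c
          rw [hj] at c1 c3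
          exact s1 j c2 (by omega)
        · exact h1 j c
      · have := rk0 n D K e
        by_cases c : (tl0 n D K e).1 ≤ st D w ∨ md D w < (tl0 n D K e).1
        · exact Or.inl c
        · exact Or.inr ((jump e (by omega) (by omega)).resolve_left (by omega))
    · exact h1 i c
  have := sum_le_sum fun w (_ : w ∈ univ) => key w
  rw [sum_comm, ← sum_mul] at this
  have t : (∑ i, a i) * 4 ≤ (∑ w : B n D, cap D w) * b := by
    refine le_trans ?_ this
    rw [sum_mul]
    refine sum_le_sum fun i _ => ?_
    rw [← sum_filter, sum_const, smul_eq_mul, mul_comm]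
    exact Nat.mul_le_mul_right _ i.2
  rw [ENNReal.div_le_iff (by simp; omega) (by simp), div_eq_mul_inv, mul_right_comm,
    ← div_eq_mul_inv, ENNReal.le_div_iff_mul_le (by simp) (by simp)]
  exact_mod_cast t

theorem mc_ge (hn : 300 ≤ n) (M : Finset (Ed n D K)) (hK : M.card < K)
    (hM : Multicut (tl0 n D K) (hd0 n D K) (fun i : Ix n D => i.1.1) (fun i => i.1.2) M) :
    (2 * n : ℝ) ^ D * (39 / 10 * D - 13) ≤ 14 * n * M.card := by
  classical
  let R := Relation.ReflTransGen fun x y => ∃ e ∉ M, tl0 n D K e = x ∧ hd0 n D K e = y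
  let Rch : ℕ → ℕ → Prop := fun x y => x = y ∨ ∃ u v : Vt n D, R u v ∧ u.1 = x ∧ v.1 = y
  let lo : ℕ → ℕ := fun p => if h : ∃ w : B n D, md D w = p then st D h.choose else p
  let hi : ℕ → ℕ := fun p => if h : ∃ w : B n D, md D w = p then en D h.choose else p + 1
  have lh : ∀ w : B n D, lo (md D w) = st D w ∧ hi (md D w) = en D w := fun w => by
    have h : ∃ v : B n D, md D v = md D w := ⟨w, rfl⟩
    simp only [lo, hi, dif_pos h, (lam D w _).2 h.choose_spec, and_self]
  obtain ⟨a, b, -, -, h⟩ := lower Rch lo hi hn (fun _ => Or.inl rfl) (by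
      rintro x y z (rfl | ⟨u, v, h, rfl, rfl⟩) (rfl | ⟨u', v', h', e, rfl⟩)
      · exact Or.inl rfl
      · exact Or.inr ⟨u', v', h', e, rfl⟩
      · exact Or.inr ⟨u, v, h, rfl, rfl⟩
      · exact Or.inr ⟨u, v', h.trans (Fin.ext e ▸ h'), rfl, rfl⟩) (by
      rintro x y W (rfl | ⟨u, v, h, rfl, rfl⟩) hW
      · rw [eq_empty_of_forall_notMem (s := W) fun p hp => by have := hW p hp; omega]; simp
      · by_contra c
        refine hM ⟨(u, v), le_trans (not_le.1 c) ((card_le_card (t := image (md D) _)
          fun p hp => ?_).trans card_image_le)⟩ h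
        have := hW p hp
        by_cases e : ∃ w : B n D, md D w = p
        · obtain ⟨w, rfl⟩ := e
          rw [(lh w).1, (lh w).2] at this
          exact mem_image_of_mem _ (mem_filter.2 ⟨mem_univ _, this⟩)
        · simp only [lo, hi, dif_neg e] at this; omega) D 0
    (fun w => ∀ j, (.inr ⟨w, j⟩ : Ed n D K) ∈ M) (fun w => by
      obtain ⟨j, hj⟩ : ∃ j, (.inl (w, j) : Ed n D K) ∉ M := by
        by_contra c
        push Not at c
        have := card_le_card_of_injOn (s := univ) (t := M) (fun j => .inl (w, j))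
          (fun j _ => c j) fun j _ k _ e => by simpa using e
        simp at this; omega
      exact Or.inr ⟨_, _, .single ⟨_, hj, rfl, rfl⟩, by simp [tl0], by simp [hd0]⟩)
    (fun w h => by
      push Not at h
      obtain ⟨j, hj⟩ := h
      exact Or.inr ⟨_, _, .single ⟨_, hj, rfl, rfl⟩, by simp [tl0], by simp [hd0]⟩)
    (by simpa using lh)
  refine le_trans (mul_le_mul_of_nonneg_left (by linarith [phi_ge a b]) (by positivity))
    (h.trans (mul_le_mul_of_nonneg_left ?_ (by positivity)))
  have := card_le_card_of_injOn (s := (univ.filter fun w : B n D => ∀ j,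
    (.inr ⟨w, j⟩ : Ed n D K) ∈ M).sigma fun _ => univ) (t := M) Sum.inr
    (fun z hz => (mem_filter.1 (mem_sigma.1 hz).1).2 z.2) Sum.inr_injective.injOn
  rw [card_sigma, sum_filter] at this
  simp only [card_univ, Fintype.card_fin] at this
  exact_mod_cast this

theorem gap (hn : 300 ≤ n) (hD : 40 ≤ D) : ∃ K,
    2 * Rate (tl0 n D K) (hd0 n D K) (fun i : Ix n D => i.1.1) (fun i => i.1.2) <
      MC (tl0 n D K) (hd0 n D K) (fun i : Ix n D => i.1.1) (fun i => i.1.2) := by
  set S := ∑ w : B n D, cap D w with hS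
  refine ⟨S / 2 + 1, lt_of_lt_of_le (b := ((S / 2 + 1 : ℕ) : ℝ≥0∞)) ?_
    (le_iInf₂ fun M hM => Nat.cast_le.2 (not_lt.1 fun c => ?_))⟩
  · refine (mul_le_mul_right (rate_le n D _) 2).trans_lt ?_
    rw [← mul_div_assoc, ENNReal.div_lt_iff (by simp) (by simp)]
    exact_mod_cast (by omega : 2 * S < (S / 2 + 1) * 4)
  · have h1 := mc_ge n D _ hn M c hM
    have h2 : (2 * n * S : ℝ) = D * (2 * n) ^ D := by exact_mod_cast sum_cap (n := n) D
    have h3 : (2 * M.card : ℝ) ≤ S := by exact_mod_cast (by omega : 2 * M.card ≤ S)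
    have h4 : (40 : ℝ) ≤ D := by exact_mod_cast hD
    have h5 : (0 : ℝ) < n := by exact_mod_cast (by omega : 0 < n)
    have h6 : (0 : ℝ) < (2 * n) ^ D := by positivity
    nlinarith [mul_le_mul_of_nonneg_left h3 h5.le, mul_le_mul_of_nonneg_left h4 h6.le]

end main

theorem result : ∃ (V E I : Type) (_ : Fintype V) (_ : Fintype E) (_ : Fintype I)
    (tail head : E → V) (src snk : I → V),
    (∃ rk : V → ℕ, ∀ e, rk (tail e) < rk (head e)) ∧
    Function.Injective (fun e => (tail e, head e)) ∧ (∀ i, src i ≠ snk i) ∧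
    2 * Rate tail head src snk < MC tail head src snk := by
  classical
  obtain ⟨n, hn⟩ : ∃ n, 300 ≤ n := ⟨_, le_rfl⟩
  obtain ⟨D, hD⟩ : ∃ n, 40 ≤ n := ⟨_, le_rfl⟩
  obtain ⟨K, h⟩ := gap n D hn hD
  refine ⟨Vt n D ⊕ Ed n D K, Ed n D K × Bool, Ix n D, inferInstance, inferInstance, inferInstance,
    tl (tl0 n D K), hd (hd0 n D K), fun i => .inl i.1.1, fun i => .inl i.1.2,
    ⟨Sum.elim (fun v => 2 * v.1) fun e => 2 * (tl0 n D K e).1 + 1, ?_⟩, ?_, fun i e => ?_,
    ((mul_le_mul_right sub_rate 2).trans_lt h).trans_le sub_mc⟩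
  · rintro ⟨e, _ | _⟩
    · simp [tl, hd]
    · have := rk0 n D K e
      simp only [tl, hd, Sum.elim_inl, Sum.elim_inr]; omega
  · rintro ⟨e, _ | _⟩ ⟨f, _ | _⟩ h <;> simp [tl, hd] at h ⊢ <;> tauto
  · obtain ⟨w, hw⟩ := card_pos.1 (lt_of_lt_of_le (by norm_num) i.2)
    have := (mem_filter.1 hw).2
    rw [Sum.inl.inj e] at this
    exact absurd this.2.1 (not_lt.2 this.1)

end Pool.Agent.Results.MP_cbd396_lc.Gap
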